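import Pool.Agent.Helper84.BP.Step5

/-!
# Phase 2, step (4): the high-slope part of the members of `2F`
-/

set_option autoImplicit false

namespace Pool.Agent.Helper15.BP

open Finset S5

namespace CA

variable {G : Type} [AddCommGroup G] [Fintype G]

/-- growth under intersections with threshold `c₀` -/
theorem DL_inf' {β : Type} {p : G → ℝ} (hp : IsPr p) (c₀ : ℝ) (S : Finset β)
    (Hp : β → AddSubgroup G)
    (h : ∀ b ∈ S, ∀ K, Hp b ≤ K →
      c₀ * (Real.log (Hp b).index - Real.log K.index) ≤ DL p (Hp b) - DL p K) :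
    c₀ * Real.log (S.inf Hp).index ≤ DL p (S.inf Hp) := by
  classical
  induction S using Finset.induction_on with
  | empty =>
    rw [Finset.inf_empty, AddSubgroup.index_top, Nat.cast_one, Real.log_one, mul_zero]
    exact DL_nonneg hp _
  | insert b S hb ih =>
    rw [Finset.inf_insert]
    have h1 := ih fun c hc => h c (Finset.mem_insert_of_mem hc)
    have h2 := h b (Finset.mem_insert_self b S) (Hp b ⊔ S.inf Hp) le_sup_left
    have h3 := DL_supermod hp (Hp b) (S.inf Hp)
    have h4 := Fam.log_index_modular (Hp b) (S.inf Hp)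
    have h5 : c₀ * Real.log (Hp b ⊓ S.inf Hp).index =
        c₀ * (Real.log (Hp b).index - Real.log (Hp b ⊔ S.inf Hp).index) +
          c₀ * Real.log (S.inf Hp).index := by
      have : Real.log (Hp b ⊓ S.inf Hp).index = Real.log (Hp b).index -
          Real.log (Hp b ⊔ S.inf Hp).index + Real.log (S.inf Hp).index := by linarith
      rw [this]; ring
    rw [h5]
    linarith

end CA

open CA

/-- the average deficiency of the members of `2F` modulo their high-slope subgroups -/
theorem claimA {G : Type} [AddCommGroup G] [Fintype G] (F : Fam G) (κ y c₀ : ℝ) (hκ : 0 ≤ κ)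
    (hc₀ : 0 < c₀) (hF : ∀ K : AddSubgroup G, F.D K ≤ κ * Real.log K.index + y)
    (Hp : F.Ω → F.Ω → AddSubgroup G)
    (h2 : ∀ a b, 0 < F.w a → 0 < F.w b → ∀ K, Hp a b ≤ K →
      c₀ * (Real.log (Hp a b).index - Real.log K.index) ≤
        DL (conv (F.lawAt a) (F.lawAt b)) (Hp a b) - DL (conv (F.lawAt a) (F.lawAt b)) K) :
    ∑ o : F.Ω × F.Ω, prodW F.w F.w o * DL (conv (F.lawAt o.1) (F.lawAt o.2)) (Hp o.1 o.2) ≤
      κ / c₀ * F.D ⊥ + y := by
  classical
  have hlaw : ∀ a, 0 < F.w a → IsPr (F.lawAt a) := fun a ha =>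
    isPr_law F.hw F.Y F.J (F.J a) (pr_pos F.hw F.J ha).ne'
  set X : F.Ω → F.Ω → ℝ := fun a b => DL (conv (F.lawAt a) (F.lawAt b)) (Hp a b) with hX
  have key : ∀ a, 0 < F.w a → ∑ b, F.w b * X a b ≤ κ / c₀ * DL (F.lawAt a) ⊥ + y := by
    intro a ha
    have hpa := hlaw a ha
    set S : Finset F.Ω := Finset.univ.filter (fun b => 0 < F.w b) with hS
    set N : AddSubgroup G := S.inf (Hp a) with hN
    have hN1 : c₀ * Real.log N.index ≤ DL (F.lawAt a) N := by
      refine DL_inf' hpa c₀ S (Hp a) fun b hb K hK => ?_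
      have hb' : 0 < F.w b := (Finset.mem_filter.1 hb).2
      exact (h2 a b ha hb' K hK).trans (DL_conv_cond hpa (hlaw b hb') hK)
    have hN2 : DL (F.lawAt a) N ≤ DL (F.lawAt a) ⊥ := DL_anti hpa bot_le
    have hN3 : ∑ b, F.w b * X a b ≤ F.D N := by
      rw [F.D_eq_sum]
      refine Finset.sum_le_sum fun b _ => ?_
      rcases (F.hw.nonneg b).eq_or_lt with h0 | h0
      · rw [← h0, zero_mul, zero_mul]
      · refine mul_le_mul_of_nonneg_left ?_ h0.le
        have hb : b ∈ S := Finset.mem_filter.2 ⟨Finset.mem_univ b, h0⟩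
        have hle : N ≤ Hp a b := Finset.inf_le hb
        calc X a b ≤ DL (F.lawAt b) (Hp a b) := DL_conv_right hpa (hlaw b h0) _
          _ ≤ DL (F.lawAt b) N := DL_anti (hlaw b h0) hle
    have hN4 := hF N
    have hN5 : Real.log N.index ≤ DL (F.lawAt a) ⊥ / c₀ := by
      rw [le_div_iff₀ hc₀]
      linarith
    have hN6 := mul_le_mul_of_nonneg_left hN5 hκ
    have hN7 : κ * (DL (F.lawAt a) ⊥ / c₀) = κ / c₀ * DL (F.lawAt a) ⊥ := by ring
    linarith
  have hsum : ∑ o : F.Ω × F.Ω, prodW F.w F.w o * X o.1 o.2 =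
      ∑ a, F.w a * ∑ b, F.w b * X a b := by
    rw [Fintype.sum_prod_type]
    refine Finset.sum_congr rfl fun a _ => ?_
    rw [Finset.mul_sum]
    refine Finset.sum_congr rfl fun b _ => ?_
    unfold prodW
    ring
  show ∑ o : F.Ω × F.Ω, prodW F.w F.w o * X o.1 o.2 ≤ _
  rw [hsum]
  calc ∑ a, F.w a * ∑ b, F.w b * X a b
      ≤ ∑ a, F.w a * (κ / c₀ * DL (F.lawAt a) ⊥ + y) := by
        refine Finset.sum_le_sum fun a _ => ?_
        rcases (F.hw.nonneg a).eq_or_lt with h0 | h0
        · rw [← h0, zero_mul, zero_mul]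
        · exact mul_le_mul_of_nonneg_left (key a h0) h0.le
    _ = κ / c₀ * F.D ⊥ + y := by
        have e : ∀ a, F.w a * (κ / c₀ * DL (F.lawAt a) ⊥ + y) =
            κ / c₀ * (F.w a * DL (F.lawAt a) ⊥) + F.w a * y := fun a => by ring
        rw [Finset.sum_congr rfl fun a _ => e a, Finset.sum_add_distrib, ← Finset.sum_mul,
          F.hw.sum_one, one_mul, ← Finset.mul_sum, ← F.D_eq_sum]

/-- a maximiser of `D_K - c₀ log [G:K]` for a law -/
theorem exists_Hp {G : Type} [AddCommGroup G] [Fintype G] (p : G → ℝ) (c₀ : ℝ) :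
    ∃ Hp : AddSubgroup G,
      (∀ K, Hp ≤ K → c₀ * (Real.log Hp.index - Real.log K.index) ≤ DL p Hp - DL p K) ∧
      ∀ K, K ≤ Hp → DL p K - DL p Hp ≤ c₀ * (Real.log K.index - Real.log Hp.index) := by
  have hfin : Finite (AddSubgroup G) := inferInstance
  obtain ⟨Hp, hHp⟩ := Finite.exists_max
    (fun K : AddSubgroup G => DL p K - c₀ * Real.log K.index)
  refine ⟨Hp, fun K _ => ?_, fun K _ => ?_⟩
  · have := hHp K
    linarith
  · have := hHp K
    linarith

end Pool.Agent.Helper15.BP
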